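import Pool.Agent.X271.VTri

/-!
# The v-number need not increase along the powers of an ideal

For every field `K` and every `N ≥ 3` the homogeneous ideal
`I = (xy, yz, zx, (x+y+z)^N)` of `K[x,y,z]` satisfies `v(I) = N` and `v(I²) = 3`.
So `v(I²) ≤ v(I)`, and the drop `v(I) - v(I²) = N - 3` can be arbitrarily large.
-/

namespace Pool.Agent.Results.MP_0bcfe8_al.VNumberDrops

open MvPolynomial Pool.Agent.X271.VNum Pool.Agent.X271.VTri

theorem result :
    (∀ (K : Type*) [Field K] (N : ℕ), 3 ≤ N →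
      IsHomog (triIdeal K N) ∧ triIdeal K N ≠ ⊥ ∧ triIdeal K N ≠ ⊤ ∧
      vNumber (triIdeal K N) = N ∧ vNumber (triIdeal K N ^ 2) = 3) :=
  fun _ _ _ hN => ⟨triIdeal_isHomog, triIdeal_ne_bot, triIdeal_ne_top (by omega),
    vNumber_tri (by omega), vNumber_tri_sq (by omega)⟩

end Pool.Agent.Results.MP_0bcfe8_al.VNumberDrops
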